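import Pool.Agent.H41.Freud3

open Pool.Agent.H41.Freud

theorem Pool.Agent.Results.MP_d042fc_an.Unique.result (τ t : ℝ) :
    ∀ b : ℕ → ℝ, PosSol τ t b →
      b 1 = mu τ t 2 / mu τ t 0 ∧ b 2 = mu τ t 4 / mu τ t 2 - mu τ t 2 / mu τ t 0 :=
  fun _ h => first_two h
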